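import Mathlib
import Pool.Agent.H13LA.Orb

/-!
MP_fbf57d_al: the group of local automorphisms of a finite-dimensional algebra over `ℝ` or `ℂ` is
a closed subgroup of the general linear group.
-/

set_option autoImplicit false

namespace Pool.Agent.Results.MP_fbf57d_al.LocAutClosed

open Pool.Agent.H13LA

variable {𝕜 : Type*} [RCLike 𝕜] {A : Type*} [NormedAddCommGroup A] [NormedSpace 𝕜 A]

/-- `ψ` is an automorphism of the algebra with product `μ`. -/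
def IsAut (μ : A →ₗ[𝕜] A →ₗ[𝕜] A) (ψ : A ≃ₗ[𝕜] A) : Prop :=
  ∀ a b, ψ (μ a b) = μ (ψ a) (ψ b)

/-- `φ` is a local automorphism of the algebra with product `μ`. -/
def IsLocAut (μ : A →ₗ[𝕜] A →ₗ[𝕜] A) (φ : A →ₗ[𝕜] A) : Prop :=
  ∀ x, ∃ ψ : A ≃ₗ[𝕜] A, IsAut μ ψ ∧ φ x = ψ x

variable [FiniteDimensional 𝕜 A]

/-- A local automorphism is bijective. -/
theorem IsLocAut.injective {μ : A →ₗ[𝕜] A →ₗ[𝕜] A} {φ : A →ₗ[𝕜] A} (h : IsLocAut μ φ) :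
    Function.Injective φ := by
  rw [← LinearMap.ker_eq_bot, LinearMap.ker_eq_bot']
  intro x hx
  obtain ⟨ψ, -, h2⟩ := h x
  rw [hx] at h2
  exact ψ.map_eq_zero_iff.mp h2.symm

theorem mem_orbit_iff' {μ : A →ₗ[𝕜] A →ₗ[𝕜] A} {x y : A} :
    y ∈ MulAction.orbit (autGroup μ) x ↔ ∃ ψ : A ≃ₗ[𝕜] A, IsAut μ ψ ∧ y = ψ x := by
  constructor
  · rintro ⟨g, rfl⟩
    exact ⟨g.1, g.2, rfl⟩
  · rintro ⟨ψ, h1, rfl⟩
    exact ⟨⟨ψ, h1⟩, rfl⟩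

/-- the group of local automorphisms -/
def locAut (μ : A →ₗ[𝕜] A →ₗ[𝕜] A) : Subgroup (A →L[𝕜] A)ˣ where
  carrier := {φ | IsLocAut μ ((φ : A →L[𝕜] A) : A →ₗ[𝕜] A)}
  mul_mem' := by
    intro φ χ h1 h2 x
    obtain ⟨ψ, a1, a2⟩ := h2 x
    obtain ⟨ψ', b1, b2⟩ := h1 (ψ x)
    refine ⟨ψ.trans ψ', ?_, ?_⟩
    · intro a b
      show ψ' (ψ (μ a b)) = _
      rw [a1, b1]; rfl
    · show (φ : A →L[𝕜] A) ((χ : A →L[𝕜] A) x) = ψ' (ψ x)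
      have a2' : (χ : A →L[𝕜] A) x = ψ x := a2
      have b2' : (φ : A →L[𝕜] A) (ψ x) = ψ' (ψ x) := b2
      rw [a2', b2']
  one_mem' := fun x => ⟨LinearEquiv.refl 𝕜 A, fun _ _ => rfl, rfl⟩
  inv_mem' := by
    intro φ h x
    obtain ⟨ψ, a1, a2⟩ := h (((φ⁻¹ : (A →L[𝕜] A)ˣ) : A →L[𝕜] A) x)
    have a2' : (φ : A →L[𝕜] A) (((φ⁻¹ : (A →L[𝕜] A)ˣ) : A →L[𝕜] A) x) =
        ψ (((φ⁻¹ : (A →L[𝕜] A)ˣ) : A →L[𝕜] A) x) := a2
    have e : (φ : A →L[𝕜] A) (((φ⁻¹ : (A →L[𝕜] A)ˣ) : A →L[𝕜] A) x) = x := by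
      have := congrArg (fun f : A →L[𝕜] A => f x) φ.mul_inv
      exact this
    refine ⟨ψ.symm, ?_, ?_⟩
    · intro a b
      rw [LinearEquiv.symm_apply_eq, a1]
      simp
    · show ((φ⁻¹ : (A →L[𝕜] A)ˣ) : A →L[𝕜] A) x = ψ.symm x
      rw [LinearEquiv.eq_symm_apply, ← a2', e]

theorem main (μ : A →ₗ[𝕜] A →ₗ[𝕜] A) : IsClosed (locAut μ : Set (A →L[𝕜] A)ˣ) := by
  rw [← closure_eq_iff_isClosed]
  refine Set.Subset.antisymm ?_ subset_closure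
  intro φ hφ
  -- evaluation
  have key : ∀ (χ : (A →L[𝕜] A)ˣ), χ ∈ closure (locAut μ : Set (A →L[𝕜] A)ˣ) → ∀ x : A,
      (χ : A →L[𝕜] A) x ∈ closure (MulAction.orbit (autGroup μ) x) := by
    intro χ hχ x
    have hc : Continuous fun χ : (A →L[𝕜] A)ˣ => (χ : A →L[𝕜] A) x :=
      (ContinuousLinearMap.apply 𝕜 A x).continuous.comp Units.continuous_val
    have h1 := image_closure_subset_closure_image hc ⟨χ, hχ, rfl⟩
    refine closure_mono ?_ h1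
    rintro _ ⟨θ, hθ, rfl⟩
    obtain ⟨ψ, a1, a2⟩ := hθ x
    exact mem_orbit_iff'.mpr ⟨ψ, a1, a2⟩
  have hinv : φ⁻¹ ∈ closure (locAut μ : Set (A →L[𝕜] A)ˣ) := by
    have : φ ∈ (locAut μ).topologicalClosure := hφ
    exact (locAut μ).topologicalClosure.inv_mem this
  intro x
  have hcont : ∀ g : autGroup μ, Continuous fun x : A => g • x := fun g =>
    (g.1 : A →ₗ[𝕜] A).continuous_of_finiteDimensional
  have h2 := key _ hinv ((φ : A →L[𝕜] A) x)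
  have e : ((φ⁻¹ : (A →L[𝕜] A)ˣ) : A →L[𝕜] A) ((φ : A →L[𝕜] A) x) = x := by
    have := congrArg (fun f : A →L[𝕜] A => f x) φ.inv_mul
    exact this
  rw [e] at h2
  exact mem_orbit_iff'.mp (orbit_eq hcont (flc_orbit μ x) (key φ hφ x) h2)

/-- Let `A` be a finite-dimensional vector space over `𝕜 = ℝ` or `ℂ` with a bilinear product `μ`.
Then the local automorphisms are the elements of a closed subgroup of the general linear group. -/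
theorem result (𝕜 : Type*) [RCLike 𝕜] (A : Type*) [NormedAddCommGroup A] [NormedSpace 𝕜 A]
    [FiniteDimensional 𝕜 A] (μ : A →ₗ[𝕜] A →ₗ[𝕜] A) :
    ∃ H : Subgroup (A →L[𝕜] A)ˣ, IsClosed (H : Set (A →L[𝕜] A)ˣ) ∧
      ∀ φ : A →ₗ[𝕜] A, (∀ x, ∃ ψ : A ≃ₗ[𝕜] A, (∀ a b, ψ (μ a b) = μ (ψ a) (ψ b)) ∧ φ x = ψ x) ↔
        ∃ u ∈ H, ∀ x, (u : A →L[𝕜] A) x = φ x := by
  refine ⟨locAut μ, main μ, fun φ => ⟨fun h => ?_, ?_⟩⟩
  · have hl : IsLocAut μ φ := h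
    let e : A ≃L[𝕜] A := (LinearEquiv.ofInjectiveEndo φ hl.injective).toContinuousLinearEquiv
    let u : (A →L[𝕜] A)ˣ := (ContinuousLinearEquiv.unitsEquiv 𝕜 A).symm e
    have hu : ∀ x, (u : A →L[𝕜] A) x = φ x := fun x => rfl
    refine ⟨u, fun x => ?_, hu⟩
    obtain ⟨ψ, a1, a2⟩ := h x
    exact ⟨ψ, a1, (hu x).trans a2⟩
  · rintro ⟨u, hu, h⟩ x
    obtain ⟨ψ, a1, a2⟩ := hu x
    exact ⟨ψ, a1, (h x).symm.trans a2⟩

end Pool.Agent.Results.MP_fbf57d_al.LocAutClosed
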